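import Mathlib

/-!
Binomial transforms of two-dimensional arrays, and the recursion with symbol
`(u v - 1) (u v - u - v)`, which is invariant under `(u, v) ↦ (1 - u, 1 - v)`.
-/

set_option autoImplicit false

namespace Pool.Agent.U165.OS

open Finset

/-- The one-dimensional transform. -/
def S (g : ℕ → ℚ) (a : ℕ) : ℚ := ∑ k ∈ range (a + 1), (-1) ^ k * (a.choose k : ℚ) * g k

theorem S_zero (g : ℕ → ℚ) : S g 0 = g 0 := by simp [S]

theorem S_add (g h : ℕ → ℚ) (a : ℕ) : S (fun k => g k + h k) a = S g a + S h a := by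
  simp only [S]
  rw [← sum_add_distrib]
  exact sum_congr rfl fun k _ => by ring

theorem S_sub (g h : ℕ → ℚ) (a : ℕ) : S (fun k => g k - h k) a = S g a - S h a := by
  simp only [S]
  rw [← sum_sub_distrib]
  exact sum_congr rfl fun k _ => by ring

theorem S_succ (g : ℕ → ℚ) (a : ℕ) : S g (a + 1) = S (fun k => g k - g (k + 1)) a := by
  have h1 : S g (a + 1) = ∑ k ∈ range (a + 1), (-1) ^ k * (a.choose k : ℚ) * g k +
      ∑ k ∈ range (a + 1), (-1) ^ (k + 1) * (a.choose k : ℚ) * g (k + 1) := by
    have e : ∑ k ∈ range (a + 1), (-1) ^ k * (a.choose k : ℚ) * g k =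
        ∑ k ∈ range (a + 1), (-1) ^ (k + 1) * (a.choose (k + 1) : ℚ) * g (k + 1) + g 0 := by
      have := sum_range_succ' (fun k => (-1 : ℚ) ^ k * (a.choose k : ℚ) * g k) (a + 1)
      rw [sum_range_succ] at this
      simp only [Nat.choose_succ_self, Nat.cast_zero, mul_zero, zero_mul, add_zero, pow_zero,
        Nat.choose_zero_right, Nat.cast_one, one_mul] at this
      exact this
    rw [e]
    unfold S
    rw [sum_range_succ']
    simp only [pow_zero, Nat.choose_zero_right, Nat.cast_one, one_mul]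
    rw [add_right_comm, ← sum_add_distrib]
    congr 1
    refine sum_congr rfl fun k _ => ?_
    rw [Nat.choose_succ_succ]
    push_cast
    ring
  rw [h1]
  unfold S
  rw [← sum_add_distrib]
  refine sum_congr rfl fun k _ => ?_
  ring

/-- The two-dimensional transform. -/
def T (h : ℕ → ℕ → ℚ) (a b : ℕ) : ℚ := S (fun k => S (h k) b) a

theorem T_add (h g : ℕ → ℕ → ℚ) (a b : ℕ) :
    T (fun k l => h k l + g k l) a b = T h a b + T g a b := by
  unfold T
  rw [← S_add]
  congr 1
  funext k
  exact S_add _ _ _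

theorem T_sub (h g : ℕ → ℕ → ℚ) (a b : ℕ) :
    T (fun k l => h k l - g k l) a b = T h a b - T g a b := by
  unfold T
  rw [← S_sub]
  congr 1
  funext k
  exact S_sub _ _ _

/-- difference in the first variable -/
def D1 (h : ℕ → ℕ → ℚ) : ℕ → ℕ → ℚ := fun k l => h k l - h (k + 1) l

/-- difference in the second variable -/
def D2 (h : ℕ → ℕ → ℚ) : ℕ → ℕ → ℚ := fun k l => h k l - h k (l + 1)

theorem T_succ_left (h : ℕ → ℕ → ℚ) (a b : ℕ) : T h (a + 1) b = T (D1 h) a b := by
  unfold T
  rw [S_succ]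
  congr 1
  funext k
  exact (S_sub _ _ _).symm

theorem T_succ_right (h : ℕ → ℕ → ℚ) (a b : ℕ) : T h a (b + 1) = T (D2 h) a b := by
  unfold T
  congr 1
  funext k
  exact S_succ _ _

/-- The recursion with symbol `(u v - 1) (u v - u - v)`. -/
def Rec (h : ℕ → ℕ → ℚ) : Prop := ∀ i j, h (i + 2) (j + 2) - h (i + 1) (j + 2) - h (i + 2) (j + 1) -
  h (i + 1) (j + 1) + h i (j + 1) + h (i + 1) j = 0

theorem T_zero (h : ℕ → ℕ → ℚ) (h0 : ∀ i j, h i j = 0) (a b : ℕ) : T h a b = 0 := by
  have : h = fun _ _ => 0 := by funext i j; exact h0 i j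
  subst this
  simp [T, S]

theorem Rec_T {h : ℕ → ℕ → ℚ} (hr : Rec h) : Rec (T h) := by
  intro i j
  have e : (fun k l => D1 (D1 (D2 (D2 h))) k l - D1 (D2 (D2 h)) k l - D1 (D1 (D2 h)) k l -
      D1 (D2 h) k l + D2 h k l + D1 h k l) = fun _ _ => (0 : ℚ) := by
    funext k l
    have := hr k l
    simp only [D1, D2]
    linear_combination this
  have e1 : T h (i + 2) (j + 2) = T (D1 (D1 (D2 (D2 h)))) i j := by
    rw [T_succ_right, T_succ_right, T_succ_left, T_succ_left]
  have e2 : T h (i + 1) (j + 2) = T (D1 (D2 (D2 h))) i j := by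
    rw [T_succ_right, T_succ_right, T_succ_left]
  have e3 : T h (i + 2) (j + 1) = T (D1 (D1 (D2 h))) i j := by
    rw [T_succ_right, T_succ_left, T_succ_left]
  have e4 : T h (i + 1) (j + 1) = T (D1 (D2 h)) i j := by
    rw [T_succ_right, T_succ_left]
  rw [e1, e2, e3, e4, T_succ_right, T_succ_left]
  rw [← T_sub, ← T_sub, ← T_sub, ← T_add, ← T_add]
  exact T_zero _ (fun a b => congrFun (congrFun e a) b) i j

/-- An array which satisfies the recursion and has zero boundary values is zero. -/
theorem Rec_zero {h : ℕ → ℕ → ℚ} (hr : Rec h) (h1 : ∀ b, h 0 b = 0) (h2 : ∀ b, h 1 b = 0)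
    (h3 : ∀ a, h a 0 = 0) (h4 : ∀ a, h a 1 = 0) : ∀ a b, h a b = 0 := by
  have key : ∀ s a b, a + b ≤ s → h a b = 0 := by
    intro s
    induction s with
    | zero =>
      intro a b hab
      have : a = 0 := by omega
      subst this
      exact h1 b
    | succ s ih =>
      intro a b hab
      match a, b with
      | 0, b => exact h1 b
      | 1, b => exact h2 b
      | a, 0 => exact h3 a
      | a, 1 => exact h4 a
      | (i + 2), (j + 2) =>
        have := hr i j
        have a1 := ih (i + 1) (j + 2) (by omega)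
        have a2 := ih (i + 2) (j + 1) (by omega)
        have a3 := ih (i + 1) (j + 1) (by omega)
        have a4 := ih i (j + 1) (by omega)
        have a5 := ih (i + 1) j (by omega)
        rw [a1, a2, a3, a4, a5] at this
        linarith
  exact fun a b => key (a + b) a b le_rfl

theorem S_const (a : ℕ) (ha : 1 ≤ a) (c : ℚ) : S (fun _ => c) a = 0 := by
  obtain ⟨a, rfl⟩ : ∃ n, a = n + 1 := ⟨a - 1, by omega⟩
  rw [S_succ]
  simp [S]

/-- The transform of the powers of `x`: the powers of `1 - x`. -/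
theorem S_pow (x : ℚ) (a : ℕ) : S (fun k => x ^ k) a = (1 - x) ^ a := by
  induction a with
  | zero => simp [S]
  | succ a ih =>
    rw [S_succ]
    have : (fun k => x ^ k - x ^ (k + 1)) = fun k => (1 - x) * x ^ k := by
      funext k; ring
    rw [this]
    have e : S (fun k => (1 - x) * x ^ k) a = (1 - x) * S (fun k => x ^ k) a := by
      unfold S
      rw [mul_sum]
      exact sum_congr rfl fun k _ => by ring
    rw [e, ih]
    ring

/-- The boundary values of the array of the problem. -/
structure Bd (c : ℕ → ℕ → ℚ) : Prop where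
  h00 : c 0 0 = 0
  h0 : ∀ b, c 0 (b + 1) = 1
  h10 : c 1 0 = -1
  h11 : c 1 1 = 0
  h1 : ∀ b, c 1 (b + 2) = b + 2
  sk : ∀ a b, c b a = - c a b

/-- The values of the transform for the first row. -/
theorem T_row0 {c : ℕ → ℕ → ℚ} (hc : Bd c) (b : ℕ) : T c 0 b = - c 0 b := by
  unfold T
  rw [S_zero]
  have e : c 0 = fun k => (1 : ℚ) - (if k = 0 then 1 else 0) := by
    funext k
    rcases k with _ | k
    · simp [hc.h00]
    · simp [hc.h0]
  rcases b with _ | b
  · rw [S_zero, hc.h00]; ring
  · rw [hc.h0]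
    conv_lhs => rw [e]
    rw [S_sub, S_const _ (by omega)]
    unfold S
    rw [sum_eq_single 0]
    · simp
    · intro k _ hk; simp [hk]
    · intro h; simp at h

theorem S_id (b : ℕ) : S (fun k => (k : ℚ)) (b + 2) = 0 := by
  rw [S_succ]
  have : (fun k : ℕ => (k : ℚ) - ((k + 1 : ℕ) : ℚ)) = fun _ => (-1 : ℚ) := by
    funext k; push_cast; ring
  rw [this]
  exact S_const _ (by omega) _

theorem T_row1 {c : ℕ → ℕ → ℚ} (hc : Bd c) (b : ℕ) : T c 1 b = - c 1 b := by
  have h0 := T_row0 hc b
  have e1 : T c 1 b = T c 0 b - S (c 1) b := by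
    rw [T_succ_left]
    unfold T
    rw [S_zero, S_zero]
    exact S_sub _ _ _
  rw [e1, h0]
  have e : c 1 = fun k : ℕ => (k : ℚ) - ((if k = 0 then 1 else 0) + (if k = 1 then 1 else 0)) := by
    funext k
    rcases k with _ | _ | k
    · simp [hc.h10]
    · simp [hc.h11]
    · rw [hc.h1]; simp; ring
  have g : ∀ b : ℕ, S (c 1) (b + 2) = -1 + (b + 2) := by
    intro b
    conv_lhs => rw [e]
    rw [S_sub, S_id, S_add]
    have g1 : S (fun k => if k = 0 then (1 : ℚ) else 0) (b + 2) = 1 := by
      unfold S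
      rw [sum_eq_single 0]
      · simp
      · intro k _ hk; simp [hk]
      · intro h; simp at h
    have g2 : S (fun k => if k = 1 then (1 : ℚ) else 0) (b + 2) = - (b + 2) := by
      unfold S
      rw [sum_eq_single 1]
      · simp
      · intro k _ hk; simp [hk]
      · intro h; simp at h
    rw [g1, g2]; ring
  rcases b with _ | _ | b
  · rw [S_zero, hc.h00, hc.h10]; ring
  · rw [S_succ, S_zero, hc.h0, hc.h10, hc.h11]; ring
  · rw [g, hc.h0, hc.h1]; ring

theorem T_skew {c : ℕ → ℕ → ℚ} (hc : ∀ a b, c b a = - c a b) (a b : ℕ) : T c b a = - T c a b := by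
  unfold T S
  simp only [mul_sum]
  rw [sum_comm, ← sum_neg_distrib]
  refine sum_congr rfl fun k _ => ?_
  rw [← sum_neg_distrib]
  refine sum_congr rfl fun l _ => ?_
  rw [hc k l]
  ring

/-- **The array of the problem changes sign under the transform.** -/
theorem T_eq {c : ℕ → ℕ → ℚ} (hc : Bd c) (hr : Rec c) (a b : ℕ) : T c a b = - c a b := by
  have hR : Rec (fun a b => T c a b + c a b) := by
    intro i j
    have h1 := Rec_T hr i j
    have h2 := hr i j
    linear_combination h1 + h2
  have := Rec_zero hR (fun b => by rw [T_row0 hc]; ring) (fun b => by rw [T_row1 hc]; ring)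
    (fun a => by
      rw [T_skew hc.sk 0 a, T_row0 hc, hc.sk 0 a]; ring)
    (fun a => by
      rw [T_skew hc.sk 1 a, T_row1 hc, hc.sk 1 a]; ring) a b
  linarith

end Pool.Agent.U165.OS
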