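import Pool.Agent.U165.OS.Bin

/-!
The coefficients of `(y - x) / ((1 - x y) (1 - x - y))`: recursion, boundary values, skew symmetry.
-/

set_option autoImplicit false

namespace Pool.Agent.U165.OS

open MvPowerSeries

/-- The power series `(y - x) / ((1 - x y) (1 - x - y))`, `x = X 0` and `y = X 1`. -/
noncomputable def ser : MvPowerSeries (Fin 2) ℚ :=
  (X 1 - X 0) * ((1 - X 0 * X 1) * (1 - X 0 - X 1))⁻¹

/-- exponent of `x ^ a y ^ b` -/
noncomputable def ex (a b : ℕ) : Fin 2 →₀ ℕ := Finsupp.single 0 a + Finsupp.single 1 b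

/-- The coefficient of `x ^ a y ^ b`. -/
noncomputable def cf (a b : ℕ) : ℚ := coeff (Finsupp.single 0 a + Finsupp.single 1 b) ser

theorem ex0 (a b : ℕ) : ex a b 0 = a := by simp [ex]
theorem ex1 (a b : ℕ) : ex a b 1 = b := by simp [ex]

theorem ex_le (a b c d : ℕ) : ex a b ≤ ex c d ↔ a ≤ c ∧ b ≤ d := by
  constructor
  · intro h
    have h0 := h 0
    have h1 := h 1
    rw [ex0, ex0] at h0
    rw [ex1, ex1] at h1
    exact ⟨h0, h1⟩
  · rintro ⟨h0, h1⟩ i
    fin_cases i
    · simpa [ex] using h0
    · simpa [ex] using h1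

theorem ex_sub (a b c d : ℕ) : ex c d - ex a b = ex (c - a) (d - b) := by
  ext i
  fin_cases i <;> simp [ex]

theorem ser_mul : (monomial (ex 0 0) (1 : ℚ) - monomial (ex 1 0) 1 - monomial (ex 0 1) 1
    - monomial (ex 1 1) 1 + monomial (ex 2 1) 1 + monomial (ex 1 2) 1) * ser =
    monomial (ex 0 1) 1 - monomial (ex 1 0) 1 := by
  have m (a b : ℕ) : (monomial (ex a b) (1 : ℚ)) = X 0 ^ a * X 1 ^ b := by
    rw [X_pow_eq, X_pow_eq, monomial_mul_monomial]
    simp [ex]
  have h : constantCoeff ((1 - X 0 * X 1) * (1 - X 0 - X 1) : MvPowerSeries (Fin 2) ℚ) ≠ 0 := by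
    simp
  have hi := MvPowerSeries.mul_inv_cancel _ h
  simp only [m, ser]
  linear_combination (X 1 - X 0) * hi

theorem cf_rel (a b : ℕ) :
    cf a b - (if 1 ≤ a then cf (a - 1) b else 0) - (if 1 ≤ b then cf a (b - 1) else 0)
      - (if 1 ≤ a ∧ 1 ≤ b then cf (a - 1) (b - 1) else 0)
      + (if 2 ≤ a ∧ 1 ≤ b then cf (a - 2) (b - 1) else 0)
      + (if 1 ≤ a ∧ 2 ≤ b then cf (a - 1) (b - 2) else 0) =
    (if a = 0 ∧ b = 1 then 1 else 0) - (if a = 1 ∧ b = 0 then 1 else 0) := by
  have h := congrArg (coeff (ex a b)) ser_mul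
  have g (c d : ℕ) : coeff (ex a b) (monomial (ex c d) (1 : ℚ) * ser) =
      if c ≤ a ∧ d ≤ b then cf (a - c) (b - d) else 0 := by
    rw [coeff_monomial_mul]
    simp only [ex_le, ex_sub, one_mul]
    rfl
  have g2 (c d : ℕ) : coeff (ex a b) (monomial (ex c d) (1 : ℚ)) =
      if a = c ∧ b = d then 1 else 0 := by
    classical
    rw [coeff_monomial]
    congr 1
    apply propext
    constructor
    · intro h
      have h0 := DFunLike.congr_fun h 0
      have h1 := DFunLike.congr_fun h 1
      rw [ex0, ex0] at h0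
      rw [ex1, ex1] at h1
      exact ⟨h0, h1⟩
    · rintro ⟨rfl, rfl⟩; rfl
  simp only [add_mul, sub_mul, map_add, map_sub, g, g2] at h
  simpa using h

theorem cf_rec : Rec cf := by
  intro i j
  have h := cf_rel (i + 2) (j + 2)
  simp at h
  linear_combination h

theorem cf00 : cf 0 0 = 0 := by
  have h := cf_rel 0 0
  simpa using h

theorem cf0 (b : ℕ) : cf 0 (b + 1) = 1 := by
  induction b with
  | zero =>
    have h := cf_rel 0 1
    simp [cf00] at h
    simpa using h
  | succ b ih =>
    have h := cf_rel 0 (b + 2)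
    simp at h
    rw [show b + 1 + 1 = b + 2 by ring]
    linarith

theorem cfa0 (a : ℕ) : cf (a + 1) 0 = -1 := by
  induction a with
  | zero =>
    have h := cf_rel 1 0
    simp [cf00] at h
    simpa using h
  | succ a ih =>
    have h := cf_rel (a + 2) 0
    simp at h
    rw [show a + 1 + 1 = a + 2 by ring]
    linarith

theorem cf11 : cf 1 1 = 0 := by
  have h := cf_rel 1 1
  simp [cf00] at h
  have h1 := cf0 0
  have h2 := cfa0 0
  simp only [zero_add] at h1 h2
  rw [h1, h2] at h
  linarith

theorem cf1 (b : ℕ) : cf 1 (b + 2) = b + 2 := by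
  induction b with
  | zero =>
    have h := cf_rel 1 2
    simp [cf00, cf11] at h
    have h1 := cf0 0
    have h2 := cf0 1
    simp only [zero_add, Nat.reduceAdd] at h1 h2
    rw [h1, h2] at h
    simp only [zero_add, Nat.cast_zero]
    linarith
  | succ b ih =>
    have h := cf_rel 1 (b + 3)
    simp at h
    have h1 := cf0 (b + 2)
    have h2 := cf0 (b + 1)
    have h3 := cf0 b
    rw [show b + 1 + 2 = b + 3 by ring]
    rw [show b + 2 + 1 = b + 3 by ring] at h1
    rw [show b + 1 + 1 = b + 2 by ring] at h2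
    push_cast
    rw [ih, h1, h2, h3] at h
    linarith

theorem cfa1 (a : ℕ) : cf (a + 2) 1 = - (a + 2) := by
  induction a with
  | zero =>
    have h := cf_rel 2 1
    simp [cf00, cf11] at h
    have h1 := cfa0 0
    have h2 := cfa0 1
    simp only [zero_add, Nat.reduceAdd] at h1 h2
    rw [h1, h2] at h
    simp only [zero_add, Nat.cast_zero]
    linarith
  | succ b ih =>
    have h := cf_rel (b + 3) 1
    simp at h
    have h1 := cfa0 (b + 2)
    have h2 := cfa0 (b + 1)
    have h3 := cfa0 b
    rw [show b + 1 + 2 = b + 3 by ring]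
    rw [show b + 2 + 1 = b + 3 by ring] at h1
    rw [show b + 1 + 1 = b + 2 by ring] at h2
    push_cast
    rw [ih, h1, h2, h3] at h
    linarith

theorem cf_skew (a b : ℕ) : cf b a = - cf a b := by
  have hR : Rec (fun a b => cf b a + cf a b) := by
    intro i j
    have h1 := cf_rec j i
    have h2 := cf_rec i j
    linear_combination h1 + h2
  have := Rec_zero hR (fun b => by
      rcases b with _ | b
      · simp [cf00]
      · rw [cf0, cfa0]; ring) (fun b => by
      rcases b with _ | _ | b
      · rw [cf0, cfa0]; ring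
      · simp [cf11]
      · rw [cf1, cfa1]; ring) (fun b => by
      rcases b with _ | b
      · simp [cf00]
      · rw [cf0, cfa0]; ring) (fun b => by
      rcases b with _ | _ | b
      · rw [cf0, cfa0]; ring
      · simp [cf11]
      · rw [cf1, cfa1]; ring) a b
  linarith

theorem cf_bd : Bd cf where
  h00 := cf00
  h0 := cf0
  h10 := cfa0 0
  h11 := cf11
  h1 := cf1
  sk := cf_skew

/-- **The coefficients change sign under the transform.** -/
theorem T_cf (a b : ℕ) : T cf a b = - cf a b := T_eq cf_bd cf_rec a b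

end Pool.Agent.U165.OS
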