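import Pool.Agent.Helper929.Pfaffian
import Pool.Agent.U165.OS.Ser

/-!
The Pfaffians of the two arrays.
-/

set_option autoImplicit false

namespace Pool.Agent.U165.OS

open Pool.Agent.Helper929 Finset

/-- The skew-symmetric matrix with the entries `e a b`, `a < b`, above the diagonal. -/
def skew (e : ℕ → ℕ → ℚ) (N : ℕ) : Matrix (Fin N) (Fin N) ℚ :=
  fun a b => if a < b then e a b else if b < a then - e b a else 0

/-- The array of order `2 n + 2` of the problem with the last column `v`. -/
noncomputable def arr (n : ℕ) (v : ℕ → ℚ) : Matrix (Fin (2 * n + 2)) (Fin (2 * n + 2)) ℚ :=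
  skew (fun a b => if b ≤ 2 * n then cf a b else v a) (2 * n + 2)

theorem skew_skew (e : ℕ → ℕ → ℚ) (N : ℕ) (a b : Fin N) : skew e N a b = - skew e N b a := by
  unfold skew
  rcases lt_trichotomy a b with h | h | h
  · simp [h, not_lt.mpr h.le]
  · subst h; simp
  · simp [h, not_lt.mpr h.le]

theorem pf_smul (c : ℚ) : ∀ (m : ℕ) (A : Matrix (Fin (2 * m)) (Fin (2 * m)) ℚ),
    pf (2 * m) (c • A) = c ^ m * pf (2 * m) A
  | 0, A => by simp [pf]
  | (m + 1), A => by
    show pf (2 * m + 2) (c • A) = c ^ (m + 1) * pf (2 * m + 2) A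
    simp only [pf]
    rw [mul_sum]
    refine sum_congr rfl fun j _ => ?_
    have h := pf_smul c m (A.submatrix (fun k => (j.succAbove k).succ) (fun k => (j.succAbove k).succ))
    have e : (c • A).submatrix (fun k => (j.succAbove k).succ) (fun k => (j.succAbove k).succ) =
      c • A.submatrix (fun k => (j.succAbove k).succ) (fun k => (j.succAbove k).succ) := rfl
    rw [e, h]
    simp only [Matrix.smul_apply, smul_eq_mul]
    ring

/-- The matrix of the substitution, with `-1` in the last corner. -/
def P (n : ℕ) : Matrix (Fin (2 * n + 2)) (Fin (2 * n + 2)) ℚ := fun a k =>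
  if a = Fin.last (2 * n + 1) then (if k = Fin.last (2 * n + 1) then -1 else 0)
  else if k = Fin.last (2 * n + 1) then 0 else (-1) ^ (k : ℕ) * ((a : ℕ).choose k : ℚ)

theorem P_ll (n : ℕ) : P n (Fin.last (2 * n + 1)) (Fin.last (2 * n + 1)) = -1 := by simp [P]

theorem P_lc (n : ℕ) (k : Fin (2 * n + 1)) : P n (Fin.last (2 * n + 1)) k.castSucc = 0 := by
  have : k.castSucc ≠ Fin.last (2 * n + 1) := (Fin.castSucc_lt_last k).ne
  simp [P, this]

theorem P_cl (n : ℕ) (k : Fin (2 * n + 1)) : P n k.castSucc (Fin.last (2 * n + 1)) = 0 := by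
  have : k.castSucc ≠ Fin.last (2 * n + 1) := (Fin.castSucc_lt_last k).ne
  simp [P, this]

theorem P_cc (n : ℕ) (a k : Fin (2 * n + 1)) : P n a.castSucc k.castSucc =
    (-1) ^ (k : ℕ) * ((a : ℕ).choose k : ℚ) := by
  have h1 : k.castSucc ≠ Fin.last (2 * n + 1) := (Fin.castSucc_lt_last k).ne
  have h2 : a.castSucc ≠ Fin.last (2 * n + 1) := (Fin.castSucc_lt_last a).ne
  simp [P, h1, h2]

theorem arr_cc (n : ℕ) (v : ℕ → ℚ) (a b : Fin (2 * n + 1)) :
    arr n v a.castSucc b.castSucc = cf a b := by
  unfold arr skew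
  have ha := a.isLt
  have hb := b.isLt
  rcases lt_trichotomy a b with h | h | h
  · have : a.castSucc < b.castSucc := h
    rw [if_pos this]
    simp only [Fin.val_castSucc]
    rw [if_pos (by omega)]
  · subst h
    simp only [lt_self_iff_false, if_false]
    have := cf_skew a a
    linarith
  · have h1 : b.castSucc < a.castSucc := h
    rw [if_neg (not_lt.mpr h1.le), if_pos h1]
    simp only [Fin.val_castSucc]
    rw [if_pos (by omega), cf_skew b a]

theorem arr_cl (n : ℕ) (v : ℕ → ℚ) (a : Fin (2 * n + 1)) :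
    arr n v a.castSucc (Fin.last (2 * n + 1)) = v a := by
  unfold arr skew
  rw [if_pos (Fin.castSucc_lt_last a)]
  simp only [Fin.val_castSucc, Fin.val_last]
  rw [if_neg (by omega)]

theorem arr_lc (n : ℕ) (v : ℕ → ℚ) (a : Fin (2 * n + 1)) :
    arr n v (Fin.last (2 * n + 1)) a.castSucc = - v a := by
  rw [← arr_cl n v a]
  exact skew_skew _ _ _ _

theorem arr_ll (n : ℕ) (v : ℕ → ℚ) :
    arr n v (Fin.last (2 * n + 1)) (Fin.last (2 * n + 1)) = 0 := by
  simp [arr, skew]

theorem sum_fin (N a : ℕ) (ha : a < N) (g : ℕ → ℚ) :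
    ∑ k : Fin N, (-1) ^ (k : ℕ) * (a.choose k : ℚ) * g k = S g a := by
  rw [Fin.sum_univ_eq_sum_range (fun k => (-1) ^ k * (a.choose k : ℚ) * g k)]
  unfold S
  symm
  apply sum_subset
  · intro k hk
    rw [mem_range] at hk ⊢
    omega
  · intro k _ hk
    rw [mem_range, not_lt] at hk
    rw [Nat.choose_eq_zero_of_lt (by omega)]
    simp

theorem PAP (n : ℕ) (v w : ℕ → ℚ) (h : ∀ a, S v a = w a) :
    P n * arr n v * (P n).transpose = (-1 : ℚ) • arr n w := by
  have main : ∀ a b : Fin (2 * n + 1 + 1), (P n * arr n v * (P n).transpose) a b =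
      ((-1 : ℚ) • arr n w) a b := by
    intro a b
    rw [Matrix.mul_apply]
    simp only [Matrix.mul_apply, Matrix.transpose_apply, Matrix.smul_apply, smul_eq_mul]
    erw [Fin.sum_univ_castSucc]
    have e : ∀ l : Fin (2 * n + 1 + 1), ∑ k, P n a k * arr n v k l =
        ∑ k : Fin (2 * n + 1), P n a k.castSucc * arr n v k.castSucc l +
        P n a (Fin.last (2 * n + 1)) * arr n v (Fin.last (2 * n + 1)) l := by
      intro l
      erw [Fin.sum_univ_castSucc]
    simp only [e]
    refine Fin.lastCases ?_ (fun a' => ?_) a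
    · refine Fin.lastCases ?_ (fun b' => ?_) b
      · simp only [P_lc, P_ll, zero_mul, sum_const_zero, mul_zero, arr_ll, arr_lc]
        simp
      · simp only [P_lc, P_ll, P_cl, P_cc, zero_mul, sum_const_zero, mul_zero, arr_ll, arr_lc]
        rw [← h, ← sum_fin _ _ b'.isLt]
        rw [mul_neg, neg_one_mul, neg_neg, add_zero]
        exact sum_congr rfl fun k _ => by ring
    · refine Fin.lastCases ?_ (fun b' => ?_) b
      · simp only [P_lc, P_ll, P_cl, P_cc, zero_mul, sum_const_zero, mul_zero, arr_cl, arr_lc]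
        rw [← h, ← sum_fin _ _ a'.isLt]
        ring
      · simp only [P_cl, P_cc, zero_mul, mul_zero, arr_cc, add_zero]
        have := T_cf a' b'
        rw [neg_one_mul, ← this]
        unfold T
        have e2 : ∀ k : ℕ, S (cf k) b' =
            ∑ l : Fin (2 * n + 1), (-1) ^ (l : ℕ) * ((b' : ℕ).choose l : ℚ) * cf k l :=
          fun k => (sum_fin _ _ b'.isLt _).symm
        rw [← sum_fin _ _ a'.isLt]
        simp only [e2, mul_sum, sum_mul]
        rw [sum_comm]
        exact sum_congr rfl fun k _ => sum_congr rfl fun l _ => by ring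
  exact Matrix.ext main

theorem sum_id (n : ℕ) : ((-1 : ℚ) ^ (∑ a ∈ range (2 * n + 1), a)) = (-1) ^ n := by
  induction n with
  | zero => simp
  | succ n ih =>
    rw [show 2 * (n + 1) + 1 = 2 * n + 1 + 1 + 1 by ring, sum_range_succ, sum_range_succ, pow_add,
      pow_add, ih, ← pow_add, ← pow_add]
    rw [show n + (2 * n + 1) + (2 * n + 1 + 1) = n + 1 + 2 * (2 * n + 1) by ring, pow_add,
      pow_mul]
    simp

theorem det_P (n : ℕ) : (P n).det = - (-1) ^ n := by
  rw [Matrix.det_of_isLowerTriangular]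
  · erw [Fin.prod_univ_castSucc]
    simp only [P_ll, P_cc, Nat.choose_self, Nat.cast_one, mul_one]
    rw [prod_pow_eq_pow_sum, Fin.sum_univ_eq_sum_range (fun k => k), sum_id]
    ring
  · have main : ∀ a b : Fin (2 * n + 1 + 1), a < b → P n a b = 0 := by
      intro a b
      refine Fin.lastCases ?_ (fun a' => ?_) a
      · intro h
        exact absurd h (not_lt.mpr (Fin.le_last b))
      · refine Fin.lastCases ?_ (fun b' => ?_) b
        · intro _; exact P_cl n a'
        · intro h
          have h' : (a' : ℕ) < b' := h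
          rw [P_cc, Nat.choose_eq_zero_of_lt h']
          simp
    intro a b h
    exact main a b h

/-- **The Pfaffian does not change if the last column is transformed.** -/
theorem pf_arr (n : ℕ) (v w : ℕ → ℚ) (h : ∀ a, S v a = w a) :
    pf (2 * n + 2) (arr n v) = pf (2 * n + 2) (arr n w) := by
  have h1 := pf_gram (arr n v) (fun i j => skew_skew _ _ _ _) (P n)
  rw [PAP n v w h, det_P] at h1
  have h2 := pf_smul (-1) (n + 1) (arr n w)
  have h3 : pf (2 * n + 2) ((-1 : ℚ) • arr n w) = (-1) ^ (n + 1) * pf (2 * n + 2) (arr n w) := h2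
  rw [h3] at h1
  have h4 : ((-1 : ℚ) ^ n) * ((-1 : ℚ) ^ n) = 1 := by
    rw [← pow_add, ← two_mul, pow_mul]; simp
  rw [pow_succ] at h1
  linear_combination (-1 : ℚ) ^ n * h1 + (pf (2 * n + 2) (arr n w) - pf (2 * n + 2) (arr n v)) * h4

/-- Matrices which agree outside the last row and column. -/
def repl {N : ℕ} (A : Matrix (Fin (N + 1)) (Fin (N + 1)) ℚ) (v : Fin (N + 1) → ℚ) :
    Matrix (Fin (N + 1)) (Fin (N + 1)) ℚ := fun i j =>
  if i = Fin.last N then (if j = Fin.last N then 0 else - v j)
  else if j = Fin.last N then v i else A i j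

theorem _root_.Fin.succAbove_castSucc_last {N : ℕ} (j : Fin (N + 1)) :
    j.castSucc.succAbove (Fin.last N) = Fin.last (N + 1) := by
  rw [Fin.succAbove_of_le_castSucc _ _ (by
    rw [Fin.castSucc_le_castSucc_iff]; exact Fin.le_last j)]
  exact Fin.succ_last N

theorem repl_sub {N : ℕ} (A : Matrix (Fin (N + 3)) (Fin (N + 3)) ℚ) (v : Fin (N + 3) → ℚ)
    (j : Fin (N + 1)) :
    (repl A v).submatrix (fun k => (j.castSucc.succAbove k).succ)
      (fun k => (j.castSucc.succAbove k).succ) =
    repl (A.submatrix (fun k => (j.castSucc.succAbove k).succ)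
      (fun k => (j.castSucc.succAbove k).succ)) (fun k => v (j.castSucc.succAbove k).succ) := by
  have key : ∀ k : Fin (N + 1), (j.castSucc.succAbove k).succ = Fin.last (N + 2) ↔
      k = Fin.last N := by
    intro k
    rw [← Fin.succ_last, Fin.succ_inj]
    constructor
    · intro h
      exact Fin.succAbove_right_injective (h.trans (Fin.succAbove_castSucc_last j).symm)
    · rintro rfl
      exact Fin.succAbove_castSucc_last j
  ext a b
  simp only [repl, Matrix.submatrix_apply, key]

theorem pf_repl (α β : ℚ) : ∀ (N : ℕ) (A : Matrix (Fin (N + 1)) (Fin (N + 1)) ℚ)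
    (v w : Fin (N + 1) → ℚ), pf (N + 1) (repl A (fun i => α * v i + β * w i)) =
      α * pf (N + 1) (repl A v) + β * pf (N + 1) (repl A w)
  | 0, A, v, w => by simp [pf]
  | 1, A, v, w => by simp [pf, repl]
  | (N + 2), A, v, w => by
    simp only [pf]
    have split : ∀ f : Fin (N + 1 + 1) → ℚ, ∑ i, f i = ∑ i : Fin (N + 1), f i.castSucc +
      f (Fin.last (N + 1)) := fun f => Fin.sum_univ_castSucc f
    rw [split, split (fun j => (-1) ^ (j : ℕ) * repl A v 0 j.succ * _),
      split (fun j => (-1) ^ (j : ℕ) * repl A w 0 j.succ * _), mul_add, mul_add,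
      mul_sum, mul_sum]
    have h0 : (0 : Fin (N + 3)) ≠ Fin.last (N + 2) := by
      intro h
      have := congrArg Fin.val h
      simp at this
    have e1 : ∀ j : Fin (N + 1), ∀ u : Fin (N + 3) → ℚ,
        repl A u 0 j.castSucc.succ = A 0 j.castSucc.succ := by
      intro j u
      have : j.castSucc.succ ≠ Fin.last (N + 2) := by
        rw [← Fin.succ_last, Ne, Fin.succ_inj]
        exact (Fin.castSucc_lt_last j).ne
      unfold repl
      rw [if_neg h0, if_neg this]
    have e2 : ∀ u : Fin (N + 3) → ℚ, repl A u 0 (Fin.last (N + 1)).succ = u 0 := by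
      intro u
      unfold repl
      rw [if_neg h0, Fin.succ_last, if_pos rfl]
    have e3 : ∀ u u' : Fin (N + 3) → ℚ, (repl A u).submatrix
        (fun k => ((Fin.last (N + 1)).succAbove k).succ)
        (fun k => ((Fin.last (N + 1)).succAbove k).succ) = (repl A u').submatrix
        (fun k => ((Fin.last (N + 1)).succAbove k).succ)
        (fun k => ((Fin.last (N + 1)).succAbove k).succ) := by
      intro u u'
      ext a b
      have h1 : ∀ a : Fin (N + 1), ((Fin.last (N + 1)).succAbove a).succ ≠ Fin.last (N + 2) := by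
        intro a
        rw [Fin.succAbove_last, ← Fin.succ_last (N + 1), Ne, Fin.succ_inj]
        exact (Fin.castSucc_lt_last a).ne
      simp only [repl, Matrix.submatrix_apply, h1, if_false]
    have e4 : ∀ j : Fin (N + 1), pf (N + 1) ((repl A (fun i => α * v i + β * w i)).submatrix
        (fun k => (j.castSucc.succAbove k).succ) (fun k => (j.castSucc.succAbove k).succ)) =
        α * pf (N + 1) ((repl A v).submatrix
        (fun k => (j.castSucc.succAbove k).succ) (fun k => (j.castSucc.succAbove k).succ)) +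
        β * pf (N + 1) ((repl A w).submatrix
        (fun k => (j.castSucc.succAbove k).succ) (fun k => (j.castSucc.succAbove k).succ)) := by
      intro j
      rw [repl_sub, repl_sub, repl_sub]
      exact pf_repl α β N _ _ _
    simp only [e1, e2]
    rw [e3 (fun i => α * v i + β * w i) v, e3 w v]
    have e5 : ∀ j : Fin (N + 1), (-1 : ℚ) ^ ((j.castSucc : Fin (N + 2)) : ℕ) * A 0 j.castSucc.succ *
        pf (N + 1) ((repl A (fun i => α * v i + β * w i)).submatrix
        (fun k => (j.castSucc.succAbove k).succ) (fun k => (j.castSucc.succAbove k).succ)) =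
        α * ((-1 : ℚ) ^ ((j.castSucc : Fin (N + 2)) : ℕ) * A 0 j.castSucc.succ *
        pf (N + 1) ((repl A v).submatrix
        (fun k => (j.castSucc.succAbove k).succ) (fun k => (j.castSucc.succAbove k).succ))) +
        β * ((-1 : ℚ) ^ ((j.castSucc : Fin (N + 2)) : ℕ) * A 0 j.castSucc.succ *
        pf (N + 1) ((repl A w).submatrix
        (fun k => (j.castSucc.succAbove k).succ) (fun k => (j.castSucc.succAbove k).succ))) := by
      intro j
      rw [e4]
      ring
    rw [sum_congr rfl (fun j _ => e5 j), sum_add_distrib]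
    ring

theorem arr_repl (n : ℕ) (v u : ℕ → ℚ) : arr n v =
    repl (N := 2 * n + 1) (arr n u) (fun i => v i) := by
  have main : ∀ a b : Fin (2 * n + 1 + 1), arr n v a b =
      repl (N := 2 * n + 1) (arr n u) (fun i => v i) a b := by
    intro a b
    refine Fin.lastCases ?_ (fun a' => ?_) a
    · refine Fin.lastCases ?_ (fun b' => ?_) b
      · rw [arr_ll]; simp [repl]
      · have h1 : b'.castSucc ≠ Fin.last (2 * n + 1) := (Fin.castSucc_lt_last b').ne
        rw [arr_lc]; simp [repl, h1]
    · have h2 : a'.castSucc ≠ Fin.last (2 * n + 1) := (Fin.castSucc_lt_last a').ne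
      refine Fin.lastCases ?_ (fun b' => ?_) b
      · rw [arr_cl]; simp [repl, h2]
      · have h1 : b'.castSucc ≠ Fin.last (2 * n + 1) := (Fin.castSucc_lt_last b').ne
        rw [arr_cc]
        simp only [repl, if_neg h1, if_neg h2, arr_cc]
  exact Matrix.ext main

theorem pf_lin (n : ℕ) (α β : ℚ) (v w : ℕ → ℚ) :
    pf (2 * n + 2) (arr n (fun a => α * v a + β * w a)) =
      α * pf (2 * n + 2) (arr n v) + β * pf (2 * n + 2) (arr n w) := by
  rw [arr_repl n v v, arr_repl n w v, arr_repl n (fun a => α * v a + β * w a) v]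
  exact pf_repl α β (2 * n + 1) (arr n v) (fun i => v i) (fun i => w i)

end Pool.Agent.U165.OS
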